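import Pool.Agent.H14.Ns1

namespace Pool.Agent.Results.MP_4e56b2_co.Cycle
open Finset

lemma same_class {n : ℕ} [NeZero n] (h3 : 3 ∣ n) (p : ZMod n → Prop) (hp : ∀ i, p i → p (i + 3))
    {v w : ZMod n} (h : v.val % 3 = w.val % 3) (hv : p v) : p w := by
  have hk : ∀ k : ℕ, p (v + 3 * k) := by
    intro k
    induction k with
    | zero => simpa using hv
    | succ k ih =>
      have := hp _ ih
      rw [Nat.cast_succ, mul_add, mul_one, ← add_assoc]; exact this
  have h1 := ZMod.val_lt v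
  obtain ⟨k, hk'⟩ : ∃ k : ℕ, w.val + n = v.val + 3 * k := ⟨(w.val + n - v.val) / 3, by omega⟩
  have := congrArg (Nat.cast : ℕ → ZMod n) hk'
  simp only [Nat.cast_add, ZMod.natCast_val, ZMod.cast_id', id_eq, ZMod.natCast_self, add_zero,
    Nat.cast_mul, Nat.cast_ofNat] at this
  rw [this]; exact hk k

lemma card_le_three {n : ℕ} [NeZero n] (Z : Finset (ZMod n))
    (h : ∀ v ∈ Z, ∀ w ∈ Z, v.val % 3 = w.val % 3 → v = w) : #Z ≤ 3 := by
  have := Finset.card_le_card_of_injOn (s := Z) (t := range 3) (fun v => v.val % 3)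
    (fun v _ => by simp; omega) (fun v hv w hw e => h v hv w hw e)
  simpa using this

lemma core {n : ℕ} [NeZero n] (h3 : 3 ∣ n) (hn : 21 ≤ n) (f : ZMod n → ℤ)
    (hf : Function.Injective f) (B : ℤ) (hB : ∀ v, f v + f (v + 1) + f (v + 2) ≤ B)
    (hs : n * B ≤ n + 3 * ∑ v, f v) : False := by
  classical
  have sh : ∀ (g : ZMod n → ℤ) (c : ZMod n), ∑ i, g (i + c) = ∑ i, g i := fun g c =>
    Equiv.sum_comp (Equiv.addRight c) g
  have h30 : ∀ i : ZMod n, f (i + 3) ≠ f i := by
    intro i e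
    have : ((3 : ℕ) : ZMod n) = 0 := by simpa using hf e
    have := Nat.le_of_dvd (by norm_num) ((ZMod.natCast_eq_zero_iff 3 n).1 this)
    omega
  set u : ZMod n → ℤ := fun v => B - (f v + f (v + 1) + f (v + 2)) with hu
  have u0 : ∀ v, 0 ≤ u v := fun v => sub_nonneg.2 (hB v)
  have ud : ∀ v, f (v + 3) - f v = u v - u (v + 1) := by
    intro v
    have e1 : v + 1 + 1 = v + 2 := by ring
    have e2 : v + 1 + 2 = v + 3 := by ring
    simp only [hu, e1, e2]; ring
  have su : ∑ v, u v ≤ n := by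
    simp only [hu, sum_sub_distrib, sum_add_distrib, sh f 1, sh f 2, sum_const, card_univ,
      ZMod.card, nsmul_eq_mul]
    linarith
  set bad : ZMod n → ℤ := fun i => if 0 < u i ∧ 0 < u (i + 1) then 1 else 0 with hbad
  set mx : ZMod n → ℤ := fun i => if f i < f (i + 3) ∧ f (i + 3 + 3) < f (i + 3) then 1 else 0
    with hmx
  set ps : ZMod n → ℤ := fun i => if f i < f (i + 3) then 1 else 0 with hps
  set U : ZMod n → ℕ := fun v => #{i | f i < f v ∧ f v ≤ f (i + 3)} with hU
  have up : ∑ v, (U v : ℤ) + ∑ i, bad i ≤ n := by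
    have e : ∑ v, U v = ∑ i, #{v | f i < f v ∧ f v ≤ f (i + 3)} := by
      simp only [hU, card_filter]; rw [sum_comm]
    rw [← Nat.cast_sum, e, Nat.cast_sum, ← sum_add_distrib]
    refine le_trans (sum_le_sum fun i _ => ?_) su
    have c := Finset.card_le_card_of_injOn (s := {v | f i < f v ∧ f v ≤ f (i + 3)})
      (t := Ioc (f i) (f (i + 3))) f (fun v hv => by simpa using hv) hf.injOn
    rw [Int.card_Ioc] at c
    have a1 := ud i
    have a2 := u0 i
    have a3 := u0 (i + 1)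
    simp only [hbad]
    split_ifs <;> omega
  set Z0 : Finset (ZMod n) := {v | ∀ i, f i < f v → f (i + 3) < f v} with hZ0
  set Z1 : Finset (ZMod n) := {v | ∀ i, f i ≤ f v → f (i + 3) ≤ f v} with hZ1
  have c0 : #Z0 ≤ 3 := card_le_three _ fun v hv w hw e => by
    simp only [hZ0, mem_filter, mem_univ, true_and] at hv hw
    rcases lt_trichotomy (f v) (f w) with h | h | h
    · exact absurd (same_class h3 (fun i => f i < f w) hw e h) (lt_irrefl _)
    · exact hf h
    · exact absurd (same_class h3 (fun i => f i < f v) hv e.symm h) (lt_irrefl _)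
  have c1 : #Z1 ≤ 3 := card_le_three _ fun v hv w hw e => by
    simp only [hZ1, mem_filter, mem_univ, true_and] at hv hw
    exact hf (le_antisymm (same_class h3 (fun i => f i ≤ f w) hw e.symm le_rfl)
      (same_class h3 (fun i => f i ≤ f v) hv e le_rfl))
  have s0 : ∑ v, (if v ∈ Z0 then 1 else 0 : ℤ) ≤ 3 := by
    simp only [sum_boole, filter_mem_eq_inter, univ_inter]; exact_mod_cast c0
  have s1 : ∑ v, (if v ∈ Z1 then 1 else 0 : ℤ) ≤ 3 := by
    simp only [sum_boole, filter_mem_eq_inter, univ_inter]; exact_mod_cast c1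
  have l0 : ∀ v, (1 : ℤ) ≤ U v + (if v ∈ Z0 then 1 else 0) := by
    intro v
    split_ifs with h
    · omega
    · simp only [hZ0, mem_filter, mem_univ, true_and, not_forall, not_lt] at h
      obtain ⟨i, h1, h2⟩ := h
      have : 0 < U v := card_pos.2 ⟨i, by simp [h1, h2]⟩
      omega
  have l1 : ∀ v, 1 + mx v ≤ U (v + 3) + (if v + 3 ∈ Z0 then 1 else 0) +
      (if v + 3 ∈ Z1 then 1 else 0) := by
    intro v
    have a := l0 (v + 3)
    simp only [hmx]
    by_cases hm : f v < f (v + 3) ∧ f (v + 3 + 3) < f (v + 3)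
    · rw [if_pos hm]
      have hv : v ∈ ({i | f i < f (v + 3) ∧ f (v + 3) ≤ f (i + 3)} : Finset (ZMod n)) := by
        simp [hm.1]
      by_cases h : v + 3 ∈ Z1
      · rw [if_pos h]; omega
      · simp only [hZ1, mem_filter, mem_univ, true_and, not_forall, not_le] at h
        obtain ⟨i, h1, h2⟩ := h
        have n1 : i ≠ v + 3 := by rintro rfl; exact absurd h2 (not_lt.2 hm.2.le)
        have n2 : v ≠ i := by rintro rfl; exact absurd h2 (lt_irrefl _)
        have h4 : f i < f (v + 3) := lt_of_le_of_ne h1 fun e => n1 (hf e)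
        have : 1 < U (v + 3) := one_lt_card.2 ⟨v, hv, i, by simp [h4, h2.le], n2⟩
        split_ifs <;> omega
    · rw [if_neg hm]
      split_ifs at a ⊢ <;> omega
  have l2 : ∀ i, 1 + ps i ≤ 2 * mx i + ps (i + 3) + bad i + bad (i + 1) + bad (i + 2) +
      bad (i + 3) := by
    intro i
    have e1 : i + 1 + 1 = i + 2 := by ring
    have e2 : i + 2 + 1 = i + 3 := by ring
    have a0 := ud i
    have a1 := ud (i + 1)
    have a2 := ud (i + 2)
    have a3 := ud (i + 3)
    have b0 := h30 i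
    have b1 := h30 (i + 1)
    have b2 := h30 (i + 2)
    have b3 := h30 (i + 3)
    have := u0 i
    have := u0 (i + 1)
    have := u0 (i + 2)
    have := u0 (i + 3)
    have := u0 (i + 3 + 1)
    simp only [hps, hmx, hbad, e1, e2] at *
    split_ifs <;> omega
  have t0 := sum_le_sum fun v (_ : v ∈ univ) => l0 v
  have t1 := sum_le_sum fun v (_ : v ∈ univ) => l1 v
  have t2 := sum_le_sum fun v (_ : v ∈ univ) => l2 v
  simp only [sum_add_distrib, sum_const, card_univ, ZMod.card, nsmul_eq_mul, mul_one,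
    ← mul_sum] at t0 t1 t2
  rw [sh (fun v => (U v : ℤ)) 3, sh (fun v => if v ∈ Z0 then 1 else 0) 3,
    sh (fun v => if v ∈ Z1 then 1 else 0) 3] at t1
  rw [sh ps 3, sh bad 1, sh bad 2, sh bad 3] at t2
  omega

theorem lower (n : ℕ) (h6 : n % 6 = 3) (hn : 21 ≤ n) (f : ZMod n → ℕ)
    (hf : Set.BijOn f Set.univ (Set.Icc 1 n)) :
    (∃ v, 3 * (n + 1) / 2 + 2 ≤ f (v - 1) + f v + f (v + 1)) ∧
      ∃ v, f (v - 1) + f v + f (v + 1) + 2 ≤ 3 * (n + 1) / 2 := by
  classical
  have : NeZero n := ⟨by omega⟩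
  have hi : Function.Injective f := Set.injOn_univ.1 hf.injOn
  have hsum : 2 * ∑ v, (f v : ℤ) = n * (n + 1) := by
    have e : ∑ v, (f v : ℤ) = ∑ x ∈ Icc 1 n, (x : ℤ) :=
      Finset.sum_nbij f (fun v _ => by simpa using hf.mapsTo (Set.mem_univ v))
        hi.injOn (by simpa using hf.surjOn) (fun _ _ => rfl)
    rw [e]
    have : ∀ m : ℕ, 2 * ∑ x ∈ Icc 1 m, (x : ℤ) = m * (m + 1) := by
      intro m
      induction m with
      | zero => simp
      | succ m ih => rw [Finset.sum_Icc_succ_top (by omega), mul_add, ih]; push_cast; ring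
    exact this n
  obtain ⟨A, hA⟩ : ∃ A : ℕ, 3 * (n + 1) = 2 * A := ⟨3 * (n + 1) / 2, by omega⟩
  have hA' : (3 : ℤ) * (n + 1) = 2 * A := by exact_mod_cast hA
  have e1 : ∀ v : ZMod n, v + 1 - 1 = v := fun v => by ring
  have e2 : ∀ v : ZMod n, v + 1 + 1 = v + 2 := fun v => by ring
  constructor
  · by_contra h
    push Not at h
    refine core (by omega) hn (fun v => (f v : ℤ)) (fun a b e => hi (Int.ofNat_inj.1 e))
      (A + 1) (fun v => ?_) (by nlinarith)
    have := h (v + 1)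
    rw [e1, e2] at this
    omega
  · by_contra h
    push Not at h
    refine core (by omega) hn (fun v => -(f v : ℤ))
      (fun a b e => hi (by exact_mod_cast neg_injective e)) (1 - A) (fun v => ?_)
      (by rw [sum_neg_distrib]; nlinarith)
    have := h (v + 1)
    rw [e1, e2] at this
    omega

theorem result (n : ℕ) (h6 : n % 6 = 3) (hn : 21 ≤ n) :
    (∀ f : ZMod n → ℕ, Set.BijOn f Set.univ (Set.Icc 1 n) →
      (∃ v, 3 * (n + 1) / 2 + 2 ≤ f (v - 1) + f v + f (v + 1)) ∧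
        ∃ v, f (v - 1) + f v + f (v + 1) + 2 ≤ 3 * (n + 1) / 2) ∧
    ∃ f : ZMod n → ℕ, Set.BijOn f Set.univ (Set.Icc 1 n) ∧
      ∀ v, 3 * (n + 1) / 2 ≤ f (v - 1) + f v + f (v + 1) + 2 ∧
        f (v - 1) + f v + f (v + 1) ≤ 3 * (n + 1) / 2 + 2 :=
  ⟨lower n h6 hn, Pool.Agent.H14.Ns.build n h6 hn⟩

end Pool.Agent.Results.MP_4e56b2_co.Cycle
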